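import Mathlib
import Pool.Agent.R328.VJ

/-!
# Nonreciprocal polynomials of small Mahler measure have opposite faces of small codimension that are
reciprocal to each other

Boyd asks whether the Mahler measures of irreducible integer polynomials tend to infinity with the
dimension of the Newton polytope.  The starting result `NonreciprocalOrThin` gives this for
nonreciprocal polynomials, by compactness and without a rate.  Here is an explicit inequality for all
nonreciprocal polynomials `F`, reducible or not, and for all polynomials `P` with a face `F` that is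
nonreciprocal (so `P` may be reciprocal): for every pair `a`, `a'` of opposite vertices of `F` there
are opposite faces of `F`, at `a` and at `a'`, that are reciprocal to each other, and
`dim N(F) - dim(face at a) ≤ 2 M(P) ^ 4 - 17 / 8`.
So `M(P) ^ 4 ≥ (8 (dim N(F) - q) + 17) / 16`, if the faces at `a` which are reciprocal to the opposite
face at `a'` have dimension at most `q`; for instance with `q = 0`, if `F` has at least three terms and
`a + a'` is not the sum of two other exponents of `F`.

The version for pairs `A`, `B`, with the measure of `A + z B`, is `MP_6d22ea_nt.BalancedPairs`.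

The proof compares two polynomials `A`, `B` at a vertex `(a, b)` (`B` is the reciprocal polynomial of
`A = F`).  Let `w` be a direction in which the lowest parts of `A` and `B` are `c_a x ^ a h` and
`c_b x ^ b h`, and let `W` be the `w`-lowest part of `c_b x ^ b A - c_a x ^ a B`, `D = c_a² + c_b²`.
Then `∫ log (|A|² + |B|²) ≥ ∫ log (D² |h|² + |W|²) - log D`, and the last integral grows with
`dim N(W h) - dim N(h)`.  A direction `w` in the normal cone of the vertex, with `W` above the vertex,
for which `dim N(W h)` is maximal, has `dim N(W h) ≥ dim N(A B) - 1`.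
-/

set_option autoImplicit false

namespace Pool.Agent.Results.MP_417103_nt.BalancedFaces

noncomputable section

/-- Value of an integer polynomial in `k` variables at the torus point
`(exp (2 π i t_1), …, exp (2 π i t_k))`. -/
def value {k : ℕ} (F : MvPolynomial (Fin k) ℤ) (t : Fin k → ℝ) : ℂ :=
  MvPolynomial.eval (fun j : Fin k => Complex.exp (2 * (Real.pi : ℂ) * Complex.I * ((t j : ℝ) : ℂ)))
    (MvPolynomial.map (Int.castRingHom ℂ) F)

/-- The Mahler measure of an integer polynomial in `k` variables. -/
def mahler {k : ℕ} (F : MvPolynomial (Fin k) ℤ) : ℝ :=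
  Real.exp (∫ t in Set.Icc (0 : Fin k → ℝ) 1, Real.log ‖value F t‖)

/-- The dimension of the affine hull of the exponent vectors of `F` (the dimension of its Newton
polytope). -/
def newtonDim {k : ℕ} (F : MvPolynomial (Fin k) ℤ) : ℕ :=
  Module.finrank ℚ (vectorSpan ℚ ((fun s : Fin k →₀ ℕ => fun i : Fin k => ((s i : ℕ) : ℚ)) ''
    (F.support : Set (Fin k →₀ ℕ))))

/-- The weight of an exponent vector in the direction `w`. -/
def weight {k : ℕ} (w : Fin k → ℤ) (m : Fin k →₀ ℕ) : ℤ := ∑ i, w i * (m i : ℤ)

/-- The sum of the terms of weight `n` of a polynomial. -/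
def level {k : ℕ} (w : Fin k → ℤ) (n : ℤ) (P : MvPolynomial (Fin k) ℤ) : MvPolynomial (Fin k) ℤ :=
  ∑ m ∈ P.support.filter (fun m => weight w m = n), MvPolynomial.monomial m (P.coeff m)

/-- `F` is the lowest part of `P` in the direction `w` (a face of `P`; for `w = 0` it is `P`). -/
def IsLowestPart {k : ℕ} (w : Fin k → ℤ) (P F : MvPolynomial (Fin k) ℤ) : Prop :=
  F ≠ 0 ∧ ∃ n : ℤ, (∀ m ∈ P.support, n ≤ weight w m) ∧ F = level w n P

/-- The coefficient of `P` at an integral exponent vector, `0` if some entry is negative. -/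
def coeffAt {k : ℕ} (P : MvPolynomial (Fin k) ℤ) (v : Fin k → ℤ) : ℤ :=
  open Classical in
  if ∀ i, 0 ≤ v i then P.coeff (Finsupp.equivFunOnFinite.symm fun i => (v i).toNat) else 0

/-- Opposite vertices `a`, `a'` of `F`: in some direction `a` is the unique minimum and `a'` the
unique maximum on the exponents of `F`. -/
def OppositeVertices {k : ℕ} (F : MvPolynomial (Fin k) ℤ) (a a' : Fin k →₀ ℕ) : Prop :=
  a ∈ F.support ∧ a' ∈ F.support ∧ ∃ w : Fin k → ℤ, ∀ m ∈ F.support,
    (m ≠ a → weight w a < weight w m) ∧ (m ≠ a' → weight w m < weight w a')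

/-- `a` is minimal and `a'` maximal on the exponents of `F` in the direction `w`, and the faces of `F`
at `a` and at `a'` are reciprocal to each other: `c_{a'} c_{a + v} = c_a c_{a' - v}` for all `v`
orthogonal to `w`. -/
def Balanced {k : ℕ} (F : MvPolynomial (Fin k) ℤ) (a a' : Fin k →₀ ℕ) (w : Fin k → ℤ) : Prop :=
  (∀ m ∈ F.support, weight w a ≤ weight w m ∧ weight w m ≤ weight w a') ∧
    ∀ v : Fin k → ℤ, ∑ i, w i * v i = 0 →
      F.coeff a' * coeffAt F (fun i => a i + v i) = F.coeff a * coeffAt F (fun i => a' i - v i)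

/-- `F` is not reciprocal with respect to the exponents `a`, `a'`: for some integral vector `v` one has
`c_{a'} c_{a + v} ≠ c_a c_{a' - v}`. -/
def NonreciprocalAt {k : ℕ} (F : MvPolynomial (Fin k) ℤ) (a a' : Fin k →₀ ℕ) : Prop :=
  ∃ v : Fin k → ℤ,
    F.coeff a' * coeffAt F (fun i => a i + v i) ≠ F.coeff a * coeffAt F (fun i => a' i - v i)

theorem result (k : ℕ) (P F : MvPolynomial (Fin k) ℤ) (w : Fin k → ℤ) (a a' : Fin k →₀ ℕ)
    (hF : IsLowestPart w P F) (hv : OppositeVertices F a a') :
    (NonreciprocalAt F a a' → ∃ u : Fin k → ℤ, Balanced F a a' u ∧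
      (newtonDim F : ℝ) - newtonDim (level u (weight u a) F) ≤ 2 * mahler P ^ 4 - 17 / 8) ∧
    (3 ≤ F.support.card →
      (∀ m ∈ F.support, ∀ m' ∈ F.support, m + m' = a + a' → m = a ∨ m = a') →
      (newtonDim F : ℝ) ≤ 2 * mahler P ^ 4 - 17 / 8) := by
  obtain ⟨-, n, hmin, rfl⟩ := hF
  obtain ⟨ha, ha', hw⟩ := hv
  refine ⟨fun hn => ?_, fun hc hu => ?_⟩
  · obtain ⟨u, hu, h⟩ := Pool.Agent.R328.GD.balanced_faces' hmin ha ha' hw hn
    refine ⟨u, hu, ?_⟩
    have h' : 8 * (newtonDim (level w n P) : ℝ) + 17 ≤
      16 * mahler P ^ 4 + 8 * (newtonDim (level u (weight u a) (level w n P)) : ℝ) := h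
    linarith
  · have h : 8 * (newtonDim (level w n P) : ℝ) + 17 ≤ 16 * mahler P ^ 4 :=
      Pool.Agent.R328.GD.unique_face hmin ha ha' hw hu hc
    linarith

end

end Pool.Agent.Results.MP_417103_nt.BalancedFaces
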